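import Mathlib

/-!
MP_d1e9a6_pr: bouquets of spheres as quotients; comparison with the concrete model in `ℝ^(m(k+1))`.
-/

set_option autoImplicit false

open Topology

namespace Pool.Agent.Work.MP_d1e9a6_pr.Hedge

/-- The unit sphere `S^k` of the Euclidean space `ℝ^(k+1)`. -/
abbrev Sph (k : ℕ) : Type := Metric.sphere (0 : EuclideanSpace ℝ (Fin (k + 1))) 1

/-- The base point `(1, 0, …, 0)` of `S^k`. -/
noncomputable def basePoint (k : ℕ) : Sph k := ⟨EuclideanSpace.single 0 1, by simp⟩

/-- The identifications defining a bouquet: the extra point `inl ()` is identified with the base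
point of each of the `m` copies of `S^k`. -/
def Glue (m k : ℕ) (a b : Unit ⊕ (Fin m × Sph k)) : Prop :=
  a = Sum.inl () ∧ ∃ i : Fin m, b = Sum.inr (i, basePoint k)

/-- The bouquet (wedge sum) of `m` copies of `S^k`: quotient space of the disjoint union of a point
and `m` copies of `S^k`, all base points being identified with the point. -/
def Bouquet (m k : ℕ) : Type := Quot (Glue m k)

instance (m k : ℕ) : TopologicalSpace (Bouquet m k) := inferInstanceAs (TopologicalSpace (Quot _))

instance (m k : ℕ) : CompactSpace (Bouquet m k) := inferInstanceAs (CompactSpace (Quot _))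

/-- the concrete model -/
abbrev Model (m k : ℕ) : Type :=
  {y : Fin m × Fin (k + 1) → ℝ // y = 0 ∨ ∃ i : Fin m,
    (∀ j : Fin m, ∀ t : Fin (k + 1), j ≠ i → y (j, t) = 0) ∧
    ∑ t : Fin (k + 1), (y (i, t)) ^ 2 = 2 * y (i, 0)}

lemma sph_sum {k : ℕ} (u : Sph k) : ∑ t : Fin (k + 1), (u.1 t) ^ 2 = 1 := by
  have h := u.2
  rw [mem_sphere_zero_iff_norm, EuclideanSpace.norm_eq] at h
  have h2 : ∑ t : Fin (k + 1), ‖u.1 t‖ ^ 2 = 1 := by
    have := congrArg (fun x => x ^ 2) h
    simpa [Real.sq_sqrt, Finset.sum_nonneg, sq_nonneg] using this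
  simpa using h2

lemma sph_ext {k : ℕ} {u v : Sph k} (h : ∀ t, u.1 t = v.1 t) : u = v := by
  apply Subtype.ext
  ext t
  exact h t

/-- coordinates of a point of the `i`-th sphere -/
noncomputable def coord (m k : ℕ) (i : Fin m) (u : Sph k) : Fin m × Fin (k + 1) → ℝ :=
  fun q => if q.1 = i then (if q.2 = 0 then 1 else 0) - u.1 q.2 else 0

lemma coord_mem (m k : ℕ) (i : Fin m) (u : Sph k) :
    (∀ j : Fin m, ∀ t : Fin (k + 1), j ≠ i → coord m k i u (j, t) = 0) ∧
    ∑ t : Fin (k + 1), (coord m k i u (i, t)) ^ 2 = 2 * coord m k i u (i, 0) := by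
  refine ⟨fun j t hj => by simp [coord, hj], ?_⟩
  have h1 : ∀ t : Fin (k + 1), (coord m k i u (i, t)) ^ 2 =
      (if t = 0 then 1 - 2 * u.1 t else 0) + (u.1 t) ^ 2 := by
    intro t
    by_cases ht : t = 0
    · simp [coord, ht]; ring
    · simp [coord, ht]
  rw [Finset.sum_congr rfl (fun t _ => h1 t), Finset.sum_add_distrib, sph_sum,
    Finset.sum_ite_eq' Finset.univ (0 : Fin (k + 1)) (fun t => 1 - 2 * u.1 t)]
  simp [coord]
  ring

lemma coord_base (m k : ℕ) (i : Fin m) : coord m k i (basePoint k) = 0 := by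
  funext q
  by_cases h : q.1 = i
  · by_cases h2 : q.2 = 0
    · simp [coord, basePoint, h, h2]
    · simp [coord, basePoint, h, h2]
  · simp [coord, h]

lemma coord_eq_zero {m k : ℕ} {i : Fin m} {u : Sph k} (h : coord m k i u = 0) :
    u = basePoint k := by
  apply sph_ext
  intro t
  have h1 := congrFun h (i, t)
  by_cases h2 : t = 0
  · subst h2
    simp [coord] at h1
    simp [basePoint]
    linarith
  · simp [coord, h2] at h1
    simp [basePoint, h2, h1]

/-- the map on the disjoint union -/
noncomputable def pre (m k : ℕ) : Unit ⊕ (Fin m × Sph k) → Model m k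
  | Sum.inl _ => ⟨0, Or.inl rfl⟩
  | Sum.inr (i, u) => ⟨coord m k i u, Or.inr ⟨i, coord_mem m k i u⟩⟩

lemma continuous_pre (m k : ℕ) : Continuous (pre m k) := by
  rw [continuous_sum_dom]
  refine ⟨continuous_const, ?_⟩
  refine Continuous.subtype_mk ?_ _
  refine continuous_pi fun q => ?_
  have : ∀ x : Fin m × Sph k, coord m k x.1 x.2 q =
      (if q.1 = x.1 then (1 : ℝ) else 0) * ((if q.2 = 0 then 1 else 0) - x.2.1 q.2) := by
    intro x
    by_cases h : q.1 = x.1
    · simp [coord, h]
    · simp [coord, h]
  change Continuous fun x : Fin m × Sph k => coord m k x.1 x.2 q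
  rw [funext this]
  refine Continuous.mul ?_ ?_
  · exact (continuous_of_discreteTopology (f := fun i : Fin m => (if q.1 = i then (1 : ℝ) else 0))).comp
      continuous_fst
  · refine continuous_const.sub ?_
    exact (EuclideanSpace.proj q.2).continuous.comp (continuous_subtype_val.comp continuous_snd)

/-- the map on the bouquet -/
noncomputable def toModel (m k : ℕ) : Bouquet m k → Model m k :=
  Quot.lift (pre m k) (by
    rintro a b ⟨rfl, i, rfl⟩
    apply Subtype.ext
    change (0 : Fin m × Fin (k + 1) → ℝ) = coord m k i (basePoint k)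
    rw [coord_base])

lemma continuous_toModel (m k : ℕ) : Continuous (toModel m k) :=
  continuous_quot_lift _ (continuous_pre m k)

lemma toModel_injective (m k : ℕ) : Function.Injective (toModel m k) := by
  have key : ∀ i : Fin m, (Quot.mk (Glue m k) (Sum.inr (i, basePoint k)) : Bouquet m k) =
      Quot.mk (Glue m k) (Sum.inl ()) := fun i => (Quot.sound ⟨rfl, i, rfl⟩).symm
  intro x y
  induction x using Quot.ind with | mk x => ?_
  induction y using Quot.ind with | mk y => ?_
  intro h
  have h' : (pre m k x).1 = (pre m k y).1 := congrArg Subtype.val h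
  rcases x with ⟨⟩ | ⟨i, u⟩ <;> rcases y with ⟨⟩ | ⟨j, v⟩
  · rfl
  · have h2 : coord m k j v = 0 := h'.symm
    rw [coord_eq_zero h2, key]
  · have h2 : coord m k i u = 0 := h'
    rw [coord_eq_zero h2, key]
  · have h2 : coord m k i u = coord m k j v := h'
    by_cases hij : i = j
    · subst hij
      have : u = v := by
        apply sph_ext
        intro t
        have h1 := congrFun h2 (i, t)
        simp [coord] at h1
        exact h1
      rw [this]
    · have hu : coord m k i u = 0 := by
        funext q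
        by_cases hq : q.1 = i
        · rw [h2]
          have : q.1 ≠ j := by rw [hq]; exact hij
          simp [coord, this]
        · simp [coord, hq]
      have hv : coord m k j v = 0 := by rw [← h2, hu]
      rw [coord_eq_zero hu, coord_eq_zero hv, key, key]

lemma toModel_surjective (m k : ℕ) : Function.Surjective (toModel m k) := by
  rintro ⟨y, hy⟩
  rcases hy with hy | ⟨i, hi, hs⟩
  · exact ⟨Quot.mk _ (Sum.inl ()), Subtype.ext hy.symm⟩
  · set w : EuclideanSpace ℝ (Fin (k + 1)) :=
      WithLp.toLp 2 (fun t => (if t = 0 then (1 : ℝ) else 0) - y (i, t)) with hw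
    have hwt : ∀ t, w t = (if t = 0 then (1 : ℝ) else 0) - y (i, t) := fun t => rfl
    have hsum : ∑ t : Fin (k + 1), (w t) ^ 2 = 1 := by
      have h1 : ∀ t : Fin (k + 1), (w t) ^ 2 =
          (if t = 0 then 1 - 2 * y (i, t) else 0) + (y (i, t)) ^ 2 := by
        intro t
        rw [hwt]
        by_cases ht : t = 0
        · simp [ht]; ring
        · simp [ht]
      rw [Finset.sum_congr rfl (fun t _ => h1 t), Finset.sum_add_distrib, hs,
        Finset.sum_ite_eq' Finset.univ (0 : Fin (k + 1)) (fun t => 1 - 2 * y (i, t))]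
      simp
    have hw1 : w ∈ Metric.sphere (0 : EuclideanSpace ℝ (Fin (k + 1))) 1 := by
      rw [mem_sphere_zero_iff_norm, EuclideanSpace.norm_eq]
      have : ∑ t : Fin (k + 1), ‖w t‖ ^ 2 = 1 := by simpa using hsum
      rw [this, Real.sqrt_one]
    refine ⟨Quot.mk _ (Sum.inr (i, ⟨w, hw1⟩)), Subtype.ext ?_⟩
    change coord m k i ⟨w, hw1⟩ = y
    funext q
    by_cases hq : q.1 = i
    · have hq' : q = (i, q.2) := by rw [← hq]
      rw [hq']
      simp only [coord, if_true]
      rw [hwt]
      ring
    · have h3 := hi q.1 q.2 hq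
      simp only [coord, if_neg hq]
      exact h3.symm

/-- the bouquet is homeomorphic to the concrete model -/
noncomputable def bouquetHomeo (m k : ℕ) : Bouquet m k ≃ₜ Model m k :=
  Continuous.homeoOfEquivCompactToT2
    (f := Equiv.ofBijective (toModel m k) ⟨toModel_injective m k, toModel_surjective m k⟩)
    (continuous_toModel m k)

end Pool.Agent.Work.MP_d1e9a6_pr.Hedge
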