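import Pool.Agent.Work.MP_d1e9a6_pr_hedge.ProbLog
import Pool.Agent.Work.MP_d1e9a6_pr_hedge.Bouquet

/-!
MP_d1e9a6_pr: clique complexes, geometric realisations, binomial random graphs of Mathlib.
-/

set_option autoImplicit false

open Filter Topology MeasureTheory SimpleGraph

namespace Pool.Agent.Work.MP_d1e9a6_pr.Hedge

/-- The clique complex (flag complex) of a graph `G`: the abstract simplicial complex on the vertex
set of `G` whose faces are the nonempty finite cliques of `G`. -/
def cliqueComplex {V : Type} (G : SimpleGraph V) : AbstractSimplicialComplex V where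
  faces := {s | s.Nonempty ∧ G.IsClique (s : Set V)}
  isRelLowerSet_faces := by
    intro s hs
    refine ⟨hs.1, fun t hts ht => ⟨ht, hs.2.subset ?_⟩⟩
    exact_mod_cast hts
  singleton_mem := fun v => ⟨Finset.singleton_nonempty v, by simp⟩

/-- The geometric realisation of an abstract simplicial complex on `Fin n`: the union, over all
faces `s`, of the convex hull in `ℝ^n` of the standard basis vectors `e_v`, `v ∈ s`. -/
def realization {n : ℕ} (K : AbstractSimplicialComplex (Fin n)) : Set (Fin n → ℝ) :=
  ⋃ s ∈ K.faces, convexHull ℝ ((fun v : Fin n => (Pi.single v (1 : ℝ) : Fin n → ℝ)) '' (s : Set (Fin n)))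

/-- comparison with the set of the frozen statement -/
def realHomeo {n : ℕ} (G : SimpleGraph (Fin n)) :
    realization (cliqueComplex G) ≃ₜ
      {x : Fin n → ℝ // ∃ s : Finset (Fin n), G.IsClique (s : Set (Fin n)) ∧
        x ∈ convexHull ℝ ((fun i : Fin n => (Pi.single i (1 : ℝ) : Fin n → ℝ)) '' (s : Set (Fin n)))} :=
  Homeomorph.setCongr (by
    ext x
    simp only [realization, Set.mem_iUnion, exists_prop]
    constructor
    · rintro ⟨s, hs, hx⟩
      exact ⟨s, hs.2, hx⟩
    · rintro ⟨s, hs, hx⟩
      refine ⟨s, ⟨?_, hs⟩, hx⟩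
      rw [Finset.nonempty_iff_ne_empty]
      rintro rfl
      simp at hx)

/-- `X` is homotopy equivalent to a bouquet of `k`-spheres -/
def IsBouquet (X : Type) [TopologicalSpace X] (k : ℕ) : Prop :=
  ∃ m : ℕ, Nonempty (ContinuousMap.HomotopyEquiv X (Bouquet m k))

lemma isBouquet_of_frozen {k n : ℕ} {G : SimpleGraph (Fin n)} (h : FrozenEvent k n G) :
    IsBouquet (realization (cliqueComplex G)) k := by
  obtain ⟨m, ⟨e⟩⟩ := h
  exact ⟨m, ⟨((realHomeo G).toHomotopyEquiv.trans e).trans (bouquetHomeo m k).symm.toHomotopyEquiv⟩⟩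

/-- probabilities in the binomial random graph -/
lemma binomial_apply (n : ℕ) (p : unitInterval) (P : SimpleGraph (Fin n) → Prop) :
    (binomialRandom (Fin n) p) {G | P G} = ENNReal.ofReal (PrG n p P) := by
  classical
  haveI : MeasurableSingletonClass (SimpleGraph (Fin n)) := ⟨fun G => by
    have h : ({G} : Set (SimpleGraph (Fin n))) = edgeSet ⁻¹' {G.edgeSet} := by
      ext G'; simp
    rw [h]
    exact measurable_edgeSet (measurableSet_singleton _)⟩
  have h1 : {G | P G} = ((Finset.univ.filter P : Finset (SimpleGraph (Fin n))) :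
      Set (SimpleGraph (Fin n))) := by
    ext G; simp
  rw [h1, ← sum_measure_singleton, PrG, ENNReal.ofReal_sum_of_nonneg]
  · refine Finset.sum_congr ?_ fun G _ => ?_
    · ext G; simp
    rw [binomialRandom_singleton]
    have h2 : G.edgeSet.ncard = G.edgeFinset.card := by
      rw [← coe_edgeFinset, Set.ncard_coe_finset]
    have h3 : Nat.card (Fin n) = n := by simp
    rw [h2, h3, ENNReal.ofReal_mul (pow_nonneg p.2.1 _), ENNReal.ofReal_pow p.2.1,
      ENNReal.ofReal_pow (sub_nonneg.2 p.2.2)]
    have h4 : ((unitInterval.toNNReal p : NNReal) : ENNReal) = ENNReal.ofReal (p : ℝ) := by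
      rw [ENNReal.ofReal, ENNReal.coe_inj]
      apply NNReal.coe_injective
      rw [Real.coe_toNNReal _ p.2.1]
      rfl
    have h5 : ((unitInterval.toNNReal (unitInterval.symm p) : NNReal) : ENNReal) =
        ENNReal.ofReal (1 - (p : ℝ)) := by
      rw [ENNReal.ofReal, ENNReal.coe_inj]
      apply NNReal.coe_injective
      rw [Real.coe_toNNReal _ (sub_nonneg.2 p.2.2)]
      rfl
    rw [h4, h5]
  · intro G _
    exact mul_nonneg (pow_nonneg p.2.1 _) (pow_nonneg (sub_nonneg.2 p.2.2) _)

end Pool.Agent.Work.MP_d1e9a6_pr.Hedge
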