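import Pool.Agent.Work.MP_d1e9a6_pr.StmtA
import Pool.Agent.Work.MP_d1e9a6_pr_final.Assemble

/-!
MP_d1e9a6_pr: the range of `p` extended down to `(C log n / n)^(1/k)`.
-/

set_option autoImplicit false

open Filter Topology

namespace Pool.Agent.Work.MP_d1e9a6_pr

/-- a large negative power of `n` beats polynomials -/
theorem tendsto_poly_log {A b C : ℝ} (hA : 0 < A) (a c : ℕ) (hC : (a : ℝ) + c + 1 ≤ b * C) :
    Tendsto (fun n : ℕ => (n : ℝ) ^ c * (A * ((n : ℝ) + 1) ^ a *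
      Real.exp (-(b * (C * Real.log n))))) atTop (nhds 0) := by
  have h3 : Tendsto (fun n : ℕ => (A * 2 ^ a) * ((n : ℝ))⁻¹) atTop (nhds 0) := by
    simpa using tendsto_inv_atTop_nhds_zero_nat.const_mul (A * 2 ^ a)
  refine tendsto_of_tendsto_of_tendsto_of_le_of_le' tendsto_const_nhds h3 ?_ ?_
  · filter_upwards with n
    positivity
  · filter_upwards [eventually_ge_atTop 1] with n hn
    have hn1 : (1 : ℝ) ≤ n := by exact_mod_cast hn
    have hn0 : (0 : ℝ) < n := by linarith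
    have hlog : 0 ≤ Real.log n := Real.log_nonneg hn1
    have e2 : ((n : ℝ) + 1) ^ a ≤ 2 ^ a * (n : ℝ) ^ a := by
      rw [← mul_pow]
      gcongr
      linarith
    have e3 : Real.exp (-(b * (C * Real.log n))) ≤ (n : ℝ)⁻¹ * ((n : ℝ) ^ (a + c))⁻¹ := by
      have h1 : ((a : ℝ) + c + 1) * Real.log n ≤ b * (C * Real.log n) := by
        rw [← mul_assoc]
        exact mul_le_mul_of_nonneg_right hC hlog
      have h2 : (n : ℝ)⁻¹ * ((n : ℝ) ^ (a + c))⁻¹ = Real.exp (-(((a : ℝ) + c + 1) * Real.log n)) := by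
        have h4 : ((a : ℝ) + c + 1) * Real.log n = Real.log n * ((a + c + 1 : ℕ) : ℝ) := by
          push_cast; ring
        rw [h4, Real.exp_neg, Real.exp_mul, Real.exp_log hn0, Real.rpow_natCast, pow_succ, mul_inv,
          mul_comm]
      rw [h2]
      exact Real.exp_le_exp.2 (by linarith)
    calc (n : ℝ) ^ c * (A * ((n : ℝ) + 1) ^ a * Real.exp (-(b * (C * Real.log n))))
        ≤ (n : ℝ) ^ c * (A * (2 ^ a * (n : ℝ) ^ a) * ((n : ℝ)⁻¹ * ((n : ℝ) ^ (a + c))⁻¹)) := by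
          gcongr
      _ = A * 2 ^ a * ((n : ℝ))⁻¹ := by
          rw [pow_add]
          have h5 : (n : ℝ) ^ a ≠ 0 := pow_ne_zero _ hn0.ne'
          have h6 : (n : ℝ) ^ c ≠ 0 := pow_ne_zero _ hn0.ne'
          field_simp

/-- the bound of Theorem A for small `T`, with a free lower bound for `n p^k` -/
theorem bound_A' {A b : ℝ} {a ℓ k : ℕ} (hA : 0 < A) (hb : 0 < b) {y : ℝ}
    (h : ∀ (n : ℕ) (p : ℝ), 0 ≤ p → p ≤ 1 → ∀ T W : Finset (Fin n), Disjoint T W →
      PrG n p (fun G => ¬ Acyc (cl G (comN G T W)) ℓ) ≤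
        A * (n + 1 : ℝ) ^ a * Real.exp (-(b * W.card * p ^ (T.card + ℓ))))
    {n : ℕ} {p : ℝ} (h0 : 0 ≤ p) (h1 : p ≤ 1) (hn : 6 ≤ n) (hp : y ≤ n * p ^ k)
    (T : Finset (Fin n)) (hT : T.card ≤ 3) (hTk : T.card + ℓ ≤ k) :
    PrG n p (fun G => ¬ Acyc (cl G (comN G T (Finset.univ \ T))) ℓ) ≤
      A * (n + 1 : ℝ) ^ a * Real.exp (-((b / 2) * y)) := by
  refine (h n p h0 h1 T _ Finset.disjoint_sdiff).trans ?_
  refine mul_le_mul_of_nonneg_left (Real.exp_le_exp.2 (neg_le_neg ?_)) (by positivity)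
  have hW : ((Finset.univ \ T : Finset (Fin n)).card : ℝ) ≥ n / 2 := by
    have h2 : (Finset.univ \ T : Finset (Fin n)).card + T.card = n := by
      have := Finset.card_sdiff_add_card_eq_card (Finset.subset_univ T)
      rwa [Finset.card_univ, Fintype.card_fin] at this
    have h3 : ((Finset.univ \ T : Finset (Fin n)).card : ℝ) + T.card = n := by exact_mod_cast h2
    have h4 : (T.card : ℝ) ≤ 3 := by exact_mod_cast hT
    have h5 : (6 : ℝ) ≤ n := by exact_mod_cast hn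
    linarith
  have hpk : p ^ k ≤ p ^ (T.card + ℓ) := pow_le_pow_of_le_one h0 h1 hTk
  have hpk0 : 0 ≤ p ^ k := pow_nonneg h0 k
  calc b / 2 * y ≤ b / 2 * (n * p ^ k) := by gcongr
    _ = b * (n / 2) * p ^ k := by ring
    _ ≤ b * ((Finset.univ \ T : Finset (Fin n)).card : ℝ) * p ^ (T.card + ℓ) := by
        gcongr

/-- probability of the good event tends to one, down to `(C log n / n)^(1/k)` -/
theorem tendsto_good_log (hA : Stmt_A) {k : ℕ} (hk : 3 ≤ k) :
    ∃ C : ℝ, 0 < C ∧ ∀ ε : ℝ, 0 < ε → ∀ p : ℕ → ℝ,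
    (∀ᶠ n : ℕ in atTop, (C * Real.log n / n) ^ (1 / (k : ℝ)) ≤ p n ∧
      p n ≤ (n : ℝ) ^ (-ε) / (n : ℝ) ^ (1 / ((k : ℝ) + 1))) →
    ∃ M : ℕ, k + 2 ≤ M ∧ Tendsto (fun n : ℕ => PrG n (p n) (GoodGraph k M)) atTop (nhds 1) := by
  classical
  obtain ⟨A, b, a, hA0, hb0, hAk⟩ := hA k
  obtain ⟨A', b', a', hA0', hb0', hA1⟩ := hA 1
  obtain ⟨A'', b'', a'', hA0'', hb0'', hA2⟩ := hA 0
  set C : ℝ := 2 / b * (a + 1) + 2 / b' * (a' + 3) + 2 / b'' * (a'' + 4) with hCdef
  have hCpos : 0 < C := by positivity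
  have c0 : (a : ℝ) + (0 : ℕ) + 1 ≤ b / 2 * C := by
    have : b / 2 * (2 / b * (a + 1)) = (a : ℝ) + 1 := by field_simp
    have h2 : 0 ≤ b / 2 * (2 / b' * (a' + 3) + 2 / b'' * (a'' + 4)) := by positivity
    rw [hCdef]
    push_cast
    linarith
  have c1 : (a' : ℝ) + (2 : ℕ) + 1 ≤ b' / 2 * C := by
    have : b' / 2 * (2 / b' * (a' + 3)) = (a' : ℝ) + 3 := by field_simp
    have h2 : 0 ≤ b' / 2 * (2 / b * (a + 1) + 2 / b'' * (a'' + 4)) := by positivity
    rw [hCdef]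
    push_cast
    linarith
  have c2 : (a'' : ℝ) + (3 : ℕ) + 1 ≤ b'' / 2 * C := by
    have : b'' / 2 * (2 / b'' * (a'' + 4)) = (a'' : ℝ) + 4 := by field_simp
    have h2 : 0 ≤ b'' / 2 * (2 / b * (a + 1) + 2 / b' * (a' + 3)) := by positivity
    rw [hCdef]
    push_cast
    linarith
  refine ⟨C, hCpos, ?_⟩
  intro ε hε p hp
  have hkpos : (0 : ℝ) < k := by
    have : (3 : ℝ) ≤ k := by exact_mod_cast hk
    linarith
  -- `p` is a probability
  have hp01 : ∀ᶠ n : ℕ in atTop, 0 ≤ p n ∧ p n ≤ 1 ∧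
      p n ≤ (n : ℝ) ^ (-ε) / (n : ℝ) ^ (1 / ((k : ℝ) + 1)) := by
    filter_upwards [hp, eventually_ge_atTop 1] with n hn hn1
    have hn1' : (1 : ℝ) ≤ n := by exact_mod_cast hn1
    have hlog : 0 ≤ Real.log n := Real.log_nonneg hn1'
    refine ⟨le_trans (by positivity) hn.1, hn.2.trans ?_, hn.2⟩
    have h1 : (n : ℝ) ^ (-ε) ≤ 1 := Real.rpow_le_one_of_one_le_of_nonpos hn1' (by linarith)
    have h2 : (1 : ℝ) ≤ (n : ℝ) ^ (1 / ((k : ℝ) + 1)) :=
      Real.one_le_rpow hn1' (by positivity)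
    rw [div_le_one (by linarith)]
    exact h1.trans h2
  have hpk : ∀ᶠ n : ℕ in atTop, C * Real.log n ≤ n * p n ^ k := by
    filter_upwards [hp, eventually_ge_atTop 1] with n hn hn1
    have hn0 : (0 : ℝ) < n := by exact_mod_cast hn1
    have hn1' : (1 : ℝ) ≤ n := by exact_mod_cast hn1
    have hlog : 0 ≤ Real.log n := Real.log_nonneg hn1'
    have hx : 0 ≤ C * Real.log n / n := by positivity
    have h1 : ((C * Real.log n / n) ^ (1 / (k : ℝ))) ^ k ≤ p n ^ k :=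
      pow_le_pow_left₀ (Real.rpow_nonneg hx _) hn.1 k
    have h2 : ((C * Real.log n / n) ^ (1 / (k : ℝ))) ^ k = C * Real.log n / n := by
      rw [← Real.rpow_natCast, ← Real.rpow_mul hx, one_div, inv_mul_cancel₀ hkpos.ne',
        Real.rpow_one]
    calc C * Real.log n = n * (C * Real.log n / n) := by field_simp
      _ ≤ n * p n ^ k := by
        rw [← h2]
        exact mul_le_mul_of_nonneg_left h1 hn0.le
  obtain ⟨M, hM, hsp⟩ := sparse k ε (by omega) hε
  refine ⟨M, hM, ?_⟩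
  have hS := hsp p hp01
  -- the total error
  have t0 := tendsto_poly_log hA0 a 0 c0
  have t1 := tendsto_poly_log hA0' a' 2 c1
  have t2 := tendsto_poly_log hA0'' a'' 3 c2
  have tlow := ((hS.sub t0).sub t1).sub t2
  simp only [sub_zero] at tlow
  refine tendsto_of_tendsto_of_tendsto_of_le_of_le' tlow tendsto_const_nhds ?_ ?_
  · filter_upwards [hp01, hpk, eventually_ge_atTop 6] with n hn hnk hn6
    obtain ⟨h0, h1, _⟩ := hn
    set S : SimpleGraph (Fin n) → Prop := fun G =>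
      (∀ U : Finset (Fin n), U.Nonempty → U.card ≤ M → eIn G U < (k + 1) * U.card) ∧
      (∀ U : Finset (Fin n), U.card = M → 2 * eIn G U + (k + 1) * (k + 2) < 2 * ((k + 1) * M))
      with hSdef
    set B0 : SimpleGraph (Fin n) → Prop := fun G =>
      ¬ Acyc (cl G (comN G ∅ (Finset.univ \ ∅))) k with hB0
    set B1 : SimpleGraph (Fin n) → Prop := fun G => ∃ q ∈ (Finset.univ : Finset (Fin n × Fin n)),
      ¬ Acyc (cl G (comN G {q.1, q.2} (Finset.univ \ {q.1, q.2}))) 1 with hB1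
    set B2 : SimpleGraph (Fin n) → Prop := fun G =>
      ∃ q ∈ (Finset.univ : Finset (Fin n × Fin n × Fin n)),
      ¬ Acyc (cl G (comN G {q.1, q.2.1, q.2.2} (Finset.univ \ {q.1, q.2.1, q.2.2}))) 0 with hB2
    have e0 : PrG n (p n) B0 ≤ (n : ℝ) ^ 0 *
        (A * ((n : ℝ) + 1) ^ a * Real.exp (-(b / 2 * (C * Real.log n)))) := by
      rw [pow_zero, one_mul]
      exact bound_A' hA0 hb0 hAk h0 h1 hn6 hnk ∅ (by simp) (by simp)
    have e1 : PrG n (p n) B1 ≤ (n : ℝ) ^ 2 *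
        (A' * ((n : ℝ) + 1) ^ a' * Real.exp (-(b' / 2 * (C * Real.log n)))) := by
      refine (PrG_exists_le h0 h1 (Finset.univ : Finset (Fin n × Fin n))
        (fun q G => ¬ Acyc (cl G (comN G {q.1, q.2} (Finset.univ \ {q.1, q.2}))) 1)).trans ?_
      refine (Finset.sum_le_card_nsmul _ _
        (A' * ((n : ℝ) + 1) ^ a' * Real.exp (-(b' / 2 * (C * Real.log n)))) ?_).trans ?_
      · intro q _
        have hc : ({q.1, q.2} : Finset (Fin n)).card ≤ 2 := Finset.card_le_two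
        exact bound_A' hA0' hb0' hA1 h0 h1 hn6 hnk _ (by omega) (by omega)
      · rw [nsmul_eq_mul, Finset.card_univ, Fintype.card_prod, Fintype.card_fin]
        push_cast
        rw [pow_two]
    have e2 : PrG n (p n) B2 ≤ (n : ℝ) ^ 3 *
        (A'' * ((n : ℝ) + 1) ^ a'' * Real.exp (-(b'' / 2 * (C * Real.log n)))) := by
      refine (PrG_exists_le h0 h1 (Finset.univ : Finset (Fin n × Fin n × Fin n))
        (fun q G => ¬ Acyc (cl G (comN G {q.1, q.2.1, q.2.2}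
          (Finset.univ \ {q.1, q.2.1, q.2.2}))) 0)).trans ?_
      refine (Finset.sum_le_card_nsmul _ _
        (A'' * ((n : ℝ) + 1) ^ a'' * Real.exp (-(b'' / 2 * (C * Real.log n)))) ?_).trans ?_
      · intro q _
        have hc : ({q.1, q.2.1, q.2.2} : Finset (Fin n)).card ≤ 3 := Finset.card_le_three
        exact bound_A' hA0'' hb0'' hA2 h0 h1 hn6 hnk _ (by omega) (by omega)
      · rw [nsmul_eq_mul, Finset.card_univ, Fintype.card_prod, Fintype.card_prod,
          Fintype.card_fin]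
        push_cast
        apply le_of_eq
        ring
    have hcov : PrG n (p n) S ≤ PrG n (p n) (GoodGraph k M) + PrG n (p n) B0 + PrG n (p n) B1 +
        PrG n (p n) B2 := by
      have hmono : PrG n (p n) S ≤
          PrG n (p n) (fun G => ((GoodGraph k M G ∨ B0 G) ∨ B1 G) ∨ B2 G) := by
        refine PrG_mono h0 h1 ?_
        intro G hG
        by_contra hcon
        push Not at hcon
        obtain ⟨⟨⟨hng, hb0⟩, hb1⟩, hb2⟩ := hcon
        apply hng
        refine ⟨hG.1, hG.2, ?_, ?_, ?_⟩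
        · by_contra h; exact hb0 h
        · intro u v
          by_contra h; exact hb1 ⟨(u, v), Finset.mem_univ _, h⟩
        · intro u v w
          by_contra h; exact hb2 ⟨(u, v, w), Finset.mem_univ _, h⟩
      refine hmono.trans ?_
      refine (PrG_or_le h0 h1 _ _).trans ?_
      gcongr
      refine (PrG_or_le h0 h1 _ _).trans ?_
      gcongr
      exact PrG_or_le h0 h1 _ _
    linarith
  · filter_upwards [hp01] with n hn
    exact PrG_le_one hn.1 hn.2.1 _

/-- the event of the frozen statement -/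
def FrozenEvent (k n : ℕ) (G : SimpleGraph (Fin n)) : Prop :=
  ∃ m : ℕ, Nonempty (ContinuousMap.HomotopyEquiv
                {x : Fin n → ℝ // ∃ s : Finset (Fin n), G.IsClique (s : Set (Fin n)) ∧
                    x ∈ convexHull ℝ ((fun i : Fin n => (Pi.single i (1 : ℝ) : Fin n → ℝ)) '' (s : Set (Fin n)))}
                {y : Fin m × Fin (k + 1) → ℝ // y = 0 ∨ ∃ i : Fin m,
                    (∀ j : Fin m, ∀ t : Fin (k + 1), j ≠ i → y (j, t) = 0) ∧
                    ∑ t : Fin (k + 1), (y (i, t)) ^ 2 = 2 * y (i, 0)})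

theorem assemble_log {k : ℕ} (hk : 3 ≤ k) :
    ∃ C : ℝ, 0 < C ∧ ∀ ε : ℝ, 0 < ε → ∀ p : ℕ → ℝ,
    (∀ᶠ n : ℕ in atTop, (C * Real.log n / n) ^ (1 / (k : ℝ)) ≤ p n ∧
      p n ≤ (n : ℝ) ^ (-ε) / (n : ℝ) ^ (1 / ((k : ℝ) + 1))) →
    Tendsto (fun n : ℕ => PrG n (p n) (FrozenEvent k n)) atTop (nhds 1) := by
  obtain ⟨C, hC, hmain⟩ := tendsto_good_log stmt_A hk
  refine ⟨C, hC, ?_⟩
  intro ε hε p hp
  obtain ⟨M, hM, hgood⟩ := hmain ε hε p hp
  obtain ⟨m, rfl⟩ : ∃ m, k = m + 3 := ⟨k - 3, by omega⟩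
  have hp01 : ∀ᶠ n : ℕ in atTop, 0 ≤ p n ∧ p n ≤ 1 := by
    filter_upwards [hp, eventually_ge_atTop 1] with n hn hn1
    have hn1' : (1 : ℝ) ≤ n := by exact_mod_cast hn1
    have hlog : 0 ≤ Real.log n := Real.log_nonneg hn1'
    refine ⟨le_trans (by positivity) hn.1, hn.2.trans ?_⟩
    have h1 : (n : ℝ) ^ (-ε) ≤ 1 := Real.rpow_le_one_of_one_le_of_nonpos hn1' (by linarith)
    have h2 : (1 : ℝ) ≤ (n : ℝ) ^ (1 / (((m + 3 : ℕ) : ℝ) + 1)) :=
      Real.one_le_rpow hn1' (by positivity)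
    rw [div_le_one (by linarith)]
    exact h1.trans h2
  refine tendsto_of_tendsto_of_tendsto_of_le_of_le' hgood tendsto_const_nhds ?_ ?_
  · filter_upwards [hp01, eventually_ge_atTop 1] with n hn hn1
    refine PrG_mono hn.1 hn.2 ?_
    intro G hG
    exact H26.frozen_of_real G (m + 3) (det Top.topTarget hn1 hM G hG)
  · filter_upwards [hp01] with n hn
    exact PrG_le_one hn.1 hn.2 _

end Pool.Agent.Work.MP_d1e9a6_pr
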